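import Pool.Agent.Helper48.OD.St

/-! # Project OD, module PRD: products of two even Good elements -/

set_option autoImplicit false

namespace Pool.Agent.Helper64.OD

open Pool.Agent.Helper43.GD Pool.Agent.Helper48.OD

private theorem prd_gn_inv {L : Type} [CommRing L] [Finite L] (t : Lˣ) (h : Gn (t : L)) :
    Gn ((t⁻¹ : Lˣ) : L) := by
  rw [gn_iff] at h ⊢
  intro R hR
  refine h R ?_
  have h1 := inv_mem R t⁻¹ hR
  rwa [inv_inv] at h1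

theorem hPRD (hGP : StGP) (hL13 : Pool.Agent.Helper48.OD.StL13) : StPRD := by
  intro L A _ _ Q T₁ T₂ hC h1 h2 e1 e2 e12
  have := hC.fin
  obtain ⟨y, hy⟩ : ∃ y, y = T₁ * T₂ := ⟨_, rfl⟩
  obtain ⟨T, hT⟩ : ∃ T, T = T₁⁻¹ := ⟨_, rfl⟩
  rw [← hy] at e12 ⊢
  have hyT : y * T = T₂ := by
    rw [hy, hT, mul_comm T₁ T₂, mul_inv_cancel_right]
  have gT : Gd Q T := by
    rw [hT]
    exact Gd.inv Q h1
  have eT : Ev T := by
    rw [hT]
    exact e1.inv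
  have gyT : Gd Q (y * T) := by
    rw [hyT]
    exact h2
  have eyT : Ev (y * T) := by
    rw [hyT]
    exact e2
  have hyU : y ∈ Q.U := by
    rw [hy]
    exact Q.U.mul_mem h1.1 h2.1
  obtain ⟨t, gt, nt, et1, et2⟩ := hC.sh T gT.1 (y * T) gyT.1 eT eyT
  have gti : Gd Q t⁻¹ := Gd.inv Q gt
  have nti : Gn ((t⁻¹ : Lˣ) : L) := prd_gn_inv t nt
  have g1 : Gd Q (T * t) := by
    refine hL13.2 L A Q (T * t) t⁻¹ hC.toCB (Q.U.mul_mem gT.1 gt.1) et1 gti nti ?_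
    rw [mul_inv_cancel_right]
    exact gT
  have g2 : Gd Q (y * T * t) := by
    refine hL13.2 L A Q (y * T * t) t⁻¹ hC.toCB (Q.U.mul_mem gyT.1 gt.1) et2 gti nti ?_
    rw [mul_inv_cancel_right]
    exact gyT
  obtain ⟨v, hv⟩ := e12.isUnit hC.two
  have hu : ((v⁻¹ : Lˣ) : L) * (1 - (y : L)) = 1 := by
    rw [← hv, Units.inv_mul]
  have m1 : (T : L) ∈ Mr Q v⁻¹ := hGP L A Q y v⁻¹ T hC.fin hyU hu gT gyT
  have m2 : ((T * t : Lˣ) : L) ∈ Mr Q v⁻¹ := by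
    refine hGP L A Q y v⁻¹ (T * t) hC.fin hyU hu g1 ?_
    rw [← mul_assoc]
    exact g2
  have m3 : (t : L) ∈ Mr Q v⁻¹ := by
    have h3 := (Mr Q v⁻¹).mul_mem (inv_mem (Mr Q v⁻¹) T m1) m2
    rwa [Units.val_mul, Units.inv_mul_cancel_left] at h3
  exact hL13.1 L A Q y v⁻¹ hC.toCB hyU e12 hu ((gn_iff (t : L)).1 nt _ m3)

end Pool.Agent.Helper64.OD
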